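import Pool.Agent.N680.IR.Prob

/-!
# Independent random matrices of integers with arbitrary distributions
-/

set_option autoImplicit false

namespace Pool.Agent.N680.IR

open Finset Classical MeasureTheory ProbabilityTheory

lemma count_pair {l N C e : ℕ} (E : (Fin l → Fin N → ℤ) → Prop)
    (h : ∀ T : Finset ℤ, T.Nonempty →
      ((Fintype.piFinset fun _ : Fin l => Fintype.piFinset fun _ : Fin N => T).filter fun m =>
        ¬ E m).card ≤ C * T.card ^ e) (Bad : Set (Fin l × Fin N → ℤ))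
    (hBad : Bad = {m : Fin l × Fin N → ℤ | ¬ E fun i x => m (i, x)}) (inst : DecidableEq (Fin l × Fin N))
    (T : Finset ℤ) (hT : T.Nonempty) :
    ((@Fintype.piFinset (Fin l × Fin N) inst _ (fun _ => ℤ) fun _ => T).filter fun m => m ∈ Bad).card ≤
      C * T.card ^ e := by
  refine le_trans ?_ (h T hT)
  apply card_le_card_of_injOn (fun m i x => m (i, x))
  · intro m hm
    rw [mem_coe, mem_filter, Fintype.mem_piFinset, hBad] at hm
    rw [mem_coe, mem_filter, Fintype.mem_piFinset]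
    refine ⟨fun i => ?_, hm.2⟩
    rw [Fintype.mem_piFinset]
    exact fun x => hm.1 (i, x)
  · intro m _ m' _ hmm
    funext ⟨i, x⟩
    exact congrFun (congrFun hmm i) x

lemma card_eq_ncard {α : Type*} {S : Finset α} {A : Set α} (h : ∀ t, t ∈ S ↔ t ∈ A) : S.card = A.ncard := by
  have h1 : (S : Set α) = A := Set.ext fun t => (Finset.mem_coe).trans (h t)
  rw [← h1, Set.ncard_coe_finset]

lemma adapt {α : Type*} {A : Finset α} {E : α → Prop} {B : ℕ} (i₁ i₂ : DecidablePred fun m => ¬ E m)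
    (h : (@Finset.filter α (fun m => ¬ E m) i₁ A).card ≤ B) : (@Finset.filter α (fun m => ¬ E m) i₂ A).card ≤ B := by
  have h1 : i₁ = i₂ := Subsingleton.elim _ _
  rw [← h1]
  exact h

/-- the constant -/
noncomputable def cst (l N c C : ℕ) : ℝ :=
  ((C : ℝ) + 1) * ((l * N : ℕ) : ℝ) ^ ((l - 1) * N + c) * 2 ^ (l * N) + 1

lemma cst_one (l N c C : ℕ) : 1 ≤ cst l N c C := by
  unfold cst
  have : (0 : ℝ) ≤ ((C : ℝ) + 1) * ((l * N : ℕ) : ℝ) ^ ((l - 1) * N + c) * 2 ^ (l * N) := by positivity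
  linarith

lemma exps {l N c : ℕ} (hl : 1 ≤ l) (hc : c ≤ N) :
    (l - 1) * N + c ≤ l * N ∧ l * N - ((l - 1) * N + c) = N - c := by
  obtain ⟨l', rfl⟩ : ∃ l', l = l' + 1 := ⟨l - 1, by omega⟩
  have h1 : (l' + 1) * N = l' * N + N := by ring
  rw [h1, Nat.add_sub_cancel]
  omega

/-- **Random matrices.** -/
theorem matrices {l N c C : ℕ} (hl : 1 ≤ l) (E : (Fin l → Fin N → ℤ) → Prop)
    (h : ∀ T : Finset ℤ, T.Nonempty →
      ((Fintype.piFinset fun _ : Fin l => Fintype.piFinset fun _ : Fin N => T).filter fun m =>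
        ¬ E m).card ≤ C * T.card ^ ((l - 1) * N + c))
    (Ω : Type) [MeasurableSpace Ω] (P : Measure Ω) [IsProbabilityMeasure P] (X : Fin l × Fin N → Ω → ℤ)
    (hX : ∀ j, Measurable (X j)) (hind : iIndepFun X P) (δ : ℝ) (hδ : 0 < δ)
    (hP : ∀ j v, P {ω | X j ω = v} ≤ ENNReal.ofReal δ) :
    P {ω | ¬ E fun i x => X (i, x) ω} ≤ ENNReal.ofReal (cst l N c C * δ ^ (N - c)) := by
  by_cases hc : c ≤ N ∧ 1 ≤ N
  · obtain ⟨h1, h2⟩ := exps hl hc.1
    have hk : Fintype.card (Fin l × Fin N) = l * N := by simp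
    have hk1 : 1 ≤ l * N := Nat.mul_pos hl hc.2
    have h3 := prob P X hind hX {m : Fin l × Fin N → ℤ | ¬ E fun i x => m (i, x)} C ((l - 1) * N + c)
      (count_pair E h _ rfl _) (by rw [hk]; exact h1) (by rw [hk]; exact hk1) δ hδ hP
    rw [hk, h2] at h3
    refine le_trans h3 (ENNReal.ofReal_le_ofReal ?_)
    apply mul_le_mul_of_nonneg_right _ (by positivity)
    unfold cst
    linarith
  · have h1 : N - c = 0 := by omega
    rw [h1, pow_zero, mul_one]
    refine prob_le_one.trans ?_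
    rw [← ENNReal.ofReal_one]
    exact ENNReal.ofReal_le_ofReal (cst_one l N c C)

/-- **Matrices of values of arithmetic functions.** -/
theorem arith_matrices {l N c C : ℕ} (hl : 1 ≤ l) (E : (Fin l → Fin N → ℤ) → Prop)
    (h : ∀ T : Finset ℤ, T.Nonempty →
      ((Fintype.piFinset fun _ : Fin l => Fintype.piFinset fun _ : Fin N => T).filter fun m =>
        ¬ E m).card ≤ C * T.card ^ ((l - 1) * N + c))
    (δ : ℝ) (hδ : 0 < δ) (M : ℕ) (hM : 1 ≤ M) (F : Fin l → Fin N → ℕ → ℤ)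
    (hF : ∀ i x v, (({t : ℕ | 1 ≤ t ∧ t ≤ M ∧ F i x t = v}.ncard : ℕ) : ℝ) ≤ δ * M) :
    (({t : Fin l → Fin N → ℕ | (∀ i x, 1 ≤ t i x ∧ t i x ≤ M) ∧ ¬ E fun i x => F i x (t i x)}.ncard : ℕ) : ℝ) ≤
      cst l N c C * δ ^ (N - c) * (M : ℝ) ^ (l * N) := by
  have hM0 : (0 : ℝ) < M := by exact_mod_cast hM
  obtain ⟨Bad, hBad⟩ : ∃ Bad : Set (Fin l × Fin N → ℤ), Bad = {m | ¬ E fun i x => m (i, x)} := ⟨_, rfl⟩
  obtain ⟨S, hS⟩ : ∃ S : Finset (Fin l × Fin N → ℕ), S =
    @Fintype.piFinset (Fin l × Fin N) (fun a b => propDecidable (a = b)) _ (fun _ => ℕ) fun _ => Icc 1 M := ⟨_, rfl⟩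
  have hmem : ∀ t, t ∈ S ↔ ∀ j, t j ∈ Icc 1 M := by
    intro t
    rw [hS]
    exact @Fintype.mem_piFinset (Fin l × Fin N) (fun a b => propDecidable (a = b)) _ (fun _ => ℕ) _ _
  have hset : {t : Fin l → Fin N → ℕ | (∀ i x, 1 ≤ t i x ∧ t i x ≤ M) ∧ ¬ E fun i x => F i x (t i x)}.ncard =
      (S.filter (fun t => (fun j => F j.1 j.2 (t j)) ∈ Bad)).card := by
    rw [← Set.ncard_coe_finset]
    have h1 : {t : Fin l → Fin N → ℕ | (∀ i x, 1 ≤ t i x ∧ t i x ≤ M) ∧ ¬ E fun i x => F i x (t i x)} =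
        (fun (t : Fin l × Fin N → ℕ) i x => t (i, x)) '' (((S.filter
          (fun t => (fun j => F j.1 j.2 (t j)) ∈ Bad) :
            Finset (Fin l × Fin N → ℕ))) : Set (Fin l × Fin N → ℕ)) := by
      ext t
      constructor
      · rintro ⟨h2, h3⟩
        refine ⟨fun j => t j.1 j.2, ?_, rfl⟩
        rw [mem_coe, mem_filter, hmem, hBad]
        exact ⟨fun j => mem_Icc.2 (h2 j.1 j.2), h3⟩
      · rintro ⟨s, hs, rfl⟩
        rw [mem_coe, mem_filter, hmem, hBad] at hs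
        exact ⟨fun i x => mem_Icc.1 (hs.1 (i, x)), hs.2⟩
    rw [h1, Set.ncard_image_of_injective]
    intro s s' hss
    funext ⟨i, x⟩
    exact congrFun (congrFun hss i) x
  rw [hset]
  by_cases hc : c ≤ N ∧ 1 ≤ N
  · obtain ⟨h1, h2⟩ := exps hl hc.1
    have hk : Fintype.card (Fin l × Fin N) = l * N := by simp
    have hk1 : 1 ≤ l * N := Nat.mul_pos hl hc.2
    have h3 := arith Bad C ((l - 1) * N + c)
      (count_pair E h _ hBad _) (by rw [hk]; exact h1) (by rw [hk]; exact hk1) δ hδ M hM (fun j => F j.1 j.2) (by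
        intro j v
        refine le_trans (le_of_eq ?_) (hF j.1 j.2 v)
        exact congrArg Nat.cast (card_eq_ncard fun t => by simp [and_assoc]))
    rw [hk, h2, ← hS] at h3
    have h4 : ((C : ℝ) + 1) * ((l * N : ℕ) : ℝ) ^ ((l - 1) * N + c) * 2 ^ (l * N) * δ ^ (N - c) * (M : ℝ) ^ (l * N) ≤
        cst l N c C * δ ^ (N - c) * (M : ℝ) ^ (l * N) := by
      apply mul_le_mul_of_nonneg_right _ (by positivity)
      apply mul_le_mul_of_nonneg_right _ (by positivity)
      unfold cst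
      linarith
    exact h3.trans h4
  · have h1 : N - c = 0 := by omega
    rw [h1, pow_zero, mul_one]
    have h2 := card_filter_le S
      (fun t => (fun j => F j.1 j.2 (t j)) ∈ Bad)
    have h3 : S.card = M ^ (l * N) := by
      rw [hS]
      refine (@Fintype.card_piFinset (Fin l × Fin N) (fun _ => ℕ) (fun a b => propDecidable (a = b)) _ _).trans ?_
      simp
    rw [h3] at h2
    calc _ ≤ ((M ^ (l * N) : ℕ) : ℝ) := by exact_mod_cast h2
      _ = 1 * (M : ℝ) ^ (l * N) := by push_cast; ring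
      _ ≤ _ := mul_le_mul_of_nonneg_right (cst_one l N c C) (by positivity)

end Pool.Agent.N680.IR
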