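import Pool.Agent.N680.IR.EngR
import Pool.Agent.N680.IR.Cur

/-!
# Independent random primes with arbitrary distributions
-/

set_option autoImplicit false

namespace Pool.Agent.N680.IR

open Finset Classical MeasureTheory ProbabilityTheory

/-- arrays of natural numbers, curried -/
lemma ncard_curry {l N M : ℕ} {V : Type*} (F : Fin l → Fin N → ℕ → V) (Bad : Set (Fin l × Fin N → V))
    (E : (Fin l → Fin N → V) → Prop) (hBad : ∀ x, x ∈ Bad ↔ E fun i j => x (i, j))
    (inst : DecidableEq (Fin l × Fin N)) :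
    {t : Fin l → Fin N → ℕ | (∀ i x, 1 ≤ t i x ∧ t i x ≤ M) ∧ E fun i x => F i x (t i x)}.ncard =
      ((@Fintype.piFinset (Fin l × Fin N) inst _ (fun _ => ℕ) fun _ => Icc 1 M).filter
        (fun t => (fun j => F j.1 j.2 (t j)) ∈ Bad)).card := by
  obtain ⟨S, hS⟩ : ∃ S : Finset (Fin l × Fin N → ℕ), S =
    @Fintype.piFinset (Fin l × Fin N) inst _ (fun _ => ℕ) fun _ => Icc 1 M := ⟨_, rfl⟩
  have hmem : ∀ t, t ∈ S ↔ ∀ j, t j ∈ Icc 1 M := by
    intro t
    rw [hS]
    exact @Fintype.mem_piFinset (Fin l × Fin N) inst _ (fun _ => ℕ) _ _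
  rw [← hS, ← Set.ncard_coe_finset]
  have h1 : {t : Fin l → Fin N → ℕ | (∀ i x, 1 ≤ t i x ∧ t i x ≤ M) ∧ E fun i x => F i x (t i x)} =
      (fun (t : Fin l × Fin N → ℕ) i x => t (i, x)) '' (((S.filter
        (fun t => (fun j => F j.1 j.2 (t j)) ∈ Bad) :
          Finset (Fin l × Fin N → ℕ))) : Set (Fin l × Fin N → ℕ)) := by
    ext t
    constructor
    · rintro ⟨h2, h3⟩
      refine ⟨fun j => t j.1 j.2, ?_, rfl⟩
      rw [mem_coe, mem_filter, hmem, hBad]
      exact ⟨fun j => mem_Icc.2 (h2 j.1 j.2), h3⟩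
    · rintro ⟨s, hs, rfl⟩
      rw [mem_coe, mem_filter, hmem, hBad] at hs
      exact ⟨fun i x => mem_Icc.1 (hs.1 (i, x)), hs.2⟩
  rw [h1, Set.ncard_image_of_injective]
  intro s s' hss
  funext ⟨i, x⟩
  exact congrFun (congrFun hss i) x

/-- A statement about all finite families of distinct elements with a property `Q` gives a statement about all sets. -/
lemma sets_of_families {n r : ℕ} {V : Type*} (Q : V → Prop) (E : (Fin n → Fin r → V) → Prop) {C e e' : ℝ}
    (hC : 0 ≤ C) (he : 0 ≤ e) (hee : e' ≤ e)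
    (h : ∀ (N : ℕ) (p : Fin N → V), (∀ i, Q (p i)) → Function.Injective p →
      ((univ.filter fun f : Fin n → Fin r → Fin N => E fun i j => p (f i j)).card : ℝ) ≤ C * (N : ℝ) ^ e')
    (hnr : 1 ≤ n ∧ 1 ≤ r)
    (Bad : Set (Fin n × Fin r → V)) (hBad : ∀ x, x ∈ Bad ↔ (∀ q, Q (x q)) ∧ E fun i j => x (i, j))
    (inst : DecidableEq (Fin n × Fin r)) (T : Finset V) (_hT : T.Nonempty) :
    (((@Fintype.piFinset (Fin n × Fin r) inst _ (fun _ => V) fun _ => T).filter fun m => m ∈ Bad).card : ℝ) ≤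
      C * (T.card : ℝ) ^ e := by
  obtain ⟨T', hT'⟩ : ∃ T' : Finset V, T' = T.filter Q := ⟨_, rfl⟩
  obtain ⟨p, hp⟩ : ∃ p : Fin T'.card → V, p = fun k => ((T'.equivFin.symm k : T') : V) := ⟨_, rfl⟩
  have hpinj : Function.Injective p := by
    intro a b hab
    rw [hp] at hab
    exact T'.equivFin.symm.injective (Subtype.ext hab)
  have hpQ : ∀ i, Q (p i) := by
    intro i
    have h1 : p i ∈ T' := by
      rw [hp]
      exact (T'.equivFin.symm i).2
    rw [hT', mem_filter] at h1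
    exact h1.2
  have h1 := h T'.card p hpQ hpinj
  have h2 : ((@Fintype.piFinset (Fin n × Fin r) inst _ (fun _ => V) fun _ => T).filter fun m => m ∈ Bad).card ≤
      (univ.filter fun f : Fin n → Fin r → Fin T'.card => E fun i j => p (f i j)).card := by
    refine le_trans (card_le_card ?_) (card_image_le (s := univ.filter fun f : Fin n → Fin r → Fin T'.card =>
      E fun i j => p (f i j)) (f := fun f (q : Fin n × Fin r) => p (f q.1 q.2)))
    intro x hx
    rw [mem_filter] at hx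
    obtain ⟨hx1, hx2⟩ := hx
    have hx3 := (@Fintype.mem_piFinset (Fin n × Fin r) inst _ (fun _ => V) _ _).1 hx1
    obtain ⟨hx4, hx5⟩ := (hBad x).1 hx2
    have hx6 : ∀ q, x q ∈ T' := fun q => by
      rw [hT', mem_filter]
      exact ⟨hx3 q, hx4 q⟩
    have hx7 : ∀ q, p (T'.equivFin ⟨x q, hx6 q⟩) = x q := fun q => by
      rw [hp]
      simp
    rw [mem_image]
    refine ⟨fun i j => T'.equivFin ⟨x (i, j), hx6 (i, j)⟩, ?_, ?_⟩
    · rw [mem_filter]
      refine ⟨mem_univ _, ?_⟩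
      simp only [hx7]
      exact hx5
    · funext q
      exact hx7 q
  have h3 : T'.card ≤ T.card := by
    rw [hT']
    exact card_filter_le _ _
  have h4 : (((@Fintype.piFinset (Fin n × Fin r) inst _ (fun _ => V) fun _ => T).filter fun m => m ∈ Bad).card : ℝ) ≤
      ((univ.filter fun f : Fin n → Fin r → Fin T'.card => E fun i j => p (f i j)).card : ℝ) := by
    exact_mod_cast h2
  refine h4.trans ?_
  rcases Nat.eq_zero_or_pos T'.card with h0 | h0
  · have h5 : (univ.filter fun f : Fin n → Fin r → Fin T'.card => E fun i j => p (f i j)).card = 0 := by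
      rw [card_eq_zero, filter_eq_empty_iff]
      intro f _
      have h6 := (f ⟨0, hnr.1⟩ ⟨0, hnr.2⟩).isLt
      omega
    rw [h5]
    push_cast
    positivity
  · refine h1.trans (mul_le_mul_of_nonneg_left ?_ hC)
    have h5 : (1 : ℝ) ≤ (T'.card : ℝ) := by exact_mod_cast h0
    calc (T'.card : ℝ) ^ e' ≤ (T'.card : ℝ) ^ e := Real.rpow_le_rpow_of_exponent_le h5 hee
      _ ≤ (T.card : ℝ) ^ e := Real.rpow_le_rpow (by positivity) (by exact_mod_cast h3) he

end Pool.Agent.N680.IR
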