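import Mathlib

/-!
# Independent random parameters with arbitrary distributions

If among the `k`-tuples of elements of every finite nonempty set `T` at most `C |T| ^ e` are bad, then a tuple of `k`
independent random elements, with arbitrary distributions whose atoms are at most `δ`, is bad with probability at most
`C' δ ^ (k - e)`.
-/

set_option autoImplicit false

namespace Pool.Agent.N680.IR

open Finset Classical

/-- A sub-probability distribution with atoms at most `1 / n` is dominated, on a nonnegative function, by the uniform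
distribution on a set with at most `n` elements. -/
lemma top {V : Type*} (n : ℕ) (hn : 1 ≤ n) (S : Finset V) (w p : V → ℝ) (hw : ∀ v ∈ S, 0 ≤ w v)
    (hneg : ∀ v ∈ S, 0 ≤ p v) (hp : ∀ v ∈ S, p v ≤ 1 / n) (hs : ∑ v ∈ S, p v ≤ 1) :
    ∃ T ⊆ S, T.card ≤ n ∧ ∑ v ∈ S, p v * w v ≤ ∑ v ∈ T, (1 / (n : ℝ)) * w v := by
  rcases le_or_gt S.card n with h | h
  · exact ⟨S, Subset.refl _, h, sum_le_sum fun v hv => mul_le_mul_of_nonneg_right (hp v hv) (hw v hv)⟩
  have hne : (S.powersetCard n).Nonempty := powersetCard_nonempty.2 h.le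
  obtain ⟨T, hT, hmax⟩ := exists_max_image (S.powersetCard n) (fun T => ∑ v ∈ T, w v) hne
  rw [mem_powersetCard] at hT
  obtain ⟨hTS, hTn⟩ := hT
  have hn0 : (0 : ℝ) < n := by exact_mod_cast hn
  have hTne : T.Nonempty := by
    rw [← card_pos, hTn]
    exact hn
  obtain ⟨u0, hu0, hmin⟩ := exists_min_image T w hTne
  have hswap : ∀ v ∈ S \ T, w v ≤ w u0 := by
    intro v hv
    rw [mem_sdiff] at hv
    have h1 : insert v (T.erase u0) ∈ S.powersetCard n := by
      rw [mem_powersetCard]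
      refine ⟨?_, ?_⟩
      · intro x hx
        rw [mem_insert, mem_erase] at hx
        rcases hx with rfl | hx
        · exact hv.1
        · exact hTS hx.2
      · rw [card_insert_of_notMem (fun h => hv.2 (mem_of_mem_erase h)), card_erase_of_mem hu0, hTn]
        omega
    have h2 := hmax _ h1
    rw [sum_insert (fun h => hv.2 (mem_of_mem_erase h))] at h2
    have h3 := add_sum_erase T w hu0
    linarith
  refine ⟨T, hTS, hTn.le, ?_⟩
  have hsplit : ∑ v ∈ S, p v * w v = ∑ v ∈ S \ T, p v * w v + ∑ v ∈ T, p v * w v := (sum_sdiff hTS).symm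
  have hsplit2 : ∑ v ∈ S, p v = ∑ v ∈ S \ T, p v + ∑ v ∈ T, p v := (sum_sdiff hTS).symm
  have h1 : ∑ v ∈ S \ T, p v * w v ≤ (∑ v ∈ S \ T, p v) * w u0 := by
    rw [sum_mul]
    refine sum_le_sum fun v hv => mul_le_mul_of_nonneg_left (hswap v hv) (hneg v ?_)
    exact (mem_sdiff.1 hv).1
  have hw0 : 0 ≤ w u0 := hw _ (hTS hu0)
  have h2 : (∑ v ∈ S \ T, p v) * w u0 ≤ ∑ v ∈ T, (1 / (n : ℝ) - p v) * w v := by
    have h3 : ∑ v ∈ S \ T, p v ≤ ∑ v ∈ T, (1 / (n : ℝ) - p v) := by
      rw [sum_sub_distrib, sum_const, hTn, nsmul_eq_mul, mul_one_div_cancel hn0.ne']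
      linarith
    calc (∑ v ∈ S \ T, p v) * w u0 ≤ (∑ v ∈ T, (1 / (n : ℝ) - p v)) * w u0 :=
          mul_le_mul_of_nonneg_right h3 hw0
      _ = ∑ v ∈ T, (1 / (n : ℝ) - p v) * w u0 := by rw [sum_mul]
      _ ≤ _ := by
        refine sum_le_sum fun v hv => mul_le_mul_of_nonneg_left (hmin v hv) ?_
        have := hp v (hTS hv)
        linarith
  have h4 : ∑ v ∈ T, (1 / (n : ℝ) - p v) * w v = ∑ v ∈ T, (1 / (n : ℝ)) * w v - ∑ v ∈ T, p v * w v := by
    rw [← sum_sub_distrib]
    exact sum_congr rfl fun v _ => by ring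
  linarith

/-- The step: replace one distribution by a uniform one. -/
lemma step {ι V : Type*} [Fintype ι] (n : ℕ) (hn : 1 ≤ n) (S : ι → Finset V) (p : ι → V → ℝ)
    (f : (ι → V) → ℝ) (hf : ∀ m, 0 ≤ f m) (i : ι) (h0 : ∀ j, ∀ v ∈ S j, 0 ≤ p j v)
    (hp : ∀ v ∈ S i, p i v ≤ 1 / n) (hs : ∑ v ∈ S i, p i v ≤ 1) :
    ∃ T ⊆ S i, T.card ≤ n ∧ ∑ m ∈ Fintype.piFinset S, (∏ j, p j (m j)) * f m ≤
      ∑ m ∈ Fintype.piFinset (Function.update S i T),
        (∏ j, (Function.update p i (fun _ => 1 / (n : ℝ))) j (m j)) * f m := by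
  obtain ⟨W, hW⟩ : ∃ W : V → ℝ, W = fun v => ∑ m ∈ (Fintype.piFinset S).filter (fun m => m i = v),
      (∏ j ∈ univ.erase i, p j (m j)) * f m := ⟨_, rfl⟩
  have hW0 : ∀ v, 0 ≤ W v := by
    intro v
    rw [hW]
    refine sum_nonneg fun m hm => mul_nonneg (prod_nonneg fun j _ => h0 j _ ?_) (hf m)
    rw [mem_filter, Fintype.mem_piFinset] at hm
    exact hm.1 j
  obtain ⟨T, hTS, hTn, hT⟩ := top n hn (S i) W (p i) (fun v _ => hW0 v) (h0 i) hp hs
  refine ⟨T, hTS, hTn, ?_⟩
  have e1 : ∑ m ∈ Fintype.piFinset S, (∏ j, p j (m j)) * f m = ∑ v ∈ S i, p i v * W v := by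
    rw [← sum_fiberwise_of_maps_to (s := Fintype.piFinset S) (t := S i) (g := fun m => m i)
      (fun m hm => Fintype.mem_piFinset.1 hm i)]
    refine sum_congr rfl fun v _ => ?_
    rw [hW, mul_sum]
    refine sum_congr rfl fun m hm => ?_
    rw [mem_filter] at hm
    rw [← mul_prod_erase univ (fun j => p j (m j)) (mem_univ i), hm.2, mul_assoc]
  have e2 : ∑ m ∈ Fintype.piFinset (Function.update S i T),
      (∏ j, (Function.update p i (fun _ => 1 / (n : ℝ))) j (m j)) * f m = ∑ v ∈ T, (1 / (n : ℝ)) * W v := by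
    rw [← sum_fiberwise_of_maps_to (s := Fintype.piFinset (Function.update S i T)) (t := T) (g := fun m => m i)
      (fun m hm => by
        have := Fintype.mem_piFinset.1 hm i
        rwa [Function.update_self] at this)]
    refine sum_congr rfl fun v hv => ?_
    rw [hW, mul_sum]
    have e3 : (Fintype.piFinset (Function.update S i T)).filter (fun m => m i = v) =
        (Fintype.piFinset S).filter (fun m => m i = v) := by
      ext m
      rw [mem_filter, mem_filter, Fintype.mem_piFinset, Fintype.mem_piFinset]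
      constructor
      · rintro ⟨h1, h2⟩
        refine ⟨fun j => ?_, h2⟩
        rcases eq_or_ne j i with rfl | hj
        · rw [h2]
          exact hTS hv
        · have := h1 j
          rwa [Function.update_of_ne hj] at this
      · rintro ⟨h1, h2⟩
        refine ⟨fun j => ?_, h2⟩
        rcases eq_or_ne j i with rfl | hj
        · rw [Function.update_self, h2]
          exact hv
        · rw [Function.update_of_ne hj]
          exact h1 j
    rw [e3]
    refine sum_congr rfl fun m hm => ?_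
    rw [← mul_prod_erase univ (fun j => (Function.update p i (fun _ => 1 / (n : ℝ))) j (m j)) (mem_univ i),
      Function.update_self, mul_assoc]
    congr 2
    refine prod_congr rfl fun j hj => ?_
    rw [Function.update_of_ne (mem_erase.1 hj).1]
  rw [e1, e2]
  exact hT

/-- All distributions can be replaced by uniform distributions on sets with at most `n` elements. -/
theorem uniform {ι V : Type*} [Fintype ι] (n : ℕ) (hn : 1 ≤ n) (f : (ι → V) → ℝ) (hf : ∀ m, 0 ≤ f m)
    (S : ι → Finset V) (p : ι → V → ℝ) (h0 : ∀ j, ∀ v ∈ S j, 0 ≤ p j v)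
    (hp : ∀ j, ∀ v ∈ S j, p j v ≤ 1 / n) (hs : ∀ j, ∑ v ∈ S j, p j v ≤ 1) :
    ∃ T : ι → Finset V, (∀ j, (T j).card ≤ n) ∧ ∑ m ∈ Fintype.piFinset S, (∏ j, p j (m j)) * f m ≤
      ∑ m ∈ Fintype.piFinset T, (1 / (n : ℝ)) ^ Fintype.card ι * f m := by
  have key : ∀ J : Finset ι, ∃ T : ι → Finset V, (∀ j ∈ J, (T j).card ≤ n) ∧ (∀ j, j ∉ J → T j = S j) ∧
      ∑ m ∈ Fintype.piFinset S, (∏ j, p j (m j)) * f m ≤
      ∑ m ∈ Fintype.piFinset T, (∏ j, (if j ∈ J then (fun _ => 1 / (n : ℝ)) else p j) (m j)) * f m := by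
    intro J
    induction J using Finset.induction_on with
    | empty => exact ⟨S, by simp, by simp, by simp⟩
    | insert i J hi ih =>
      obtain ⟨T, h1, h2, h3⟩ := ih
      obtain ⟨q, hq⟩ : ∃ q : ι → V → ℝ, q = fun j => if j ∈ J then (fun _ => 1 / (n : ℝ)) else p j := ⟨_, rfl⟩
      have hqi : q i = p i := by rw [hq]; simp [hi]
      obtain ⟨T', h4, h5, h6⟩ := step n hn T q f hf i (by
        intro j v hv
        rw [hq]
        by_cases hj : j ∈ J
        · simp only [hj, if_true]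
          positivity
        · simp only [hj, if_false]
          rw [h2 j hj] at hv
          exact h0 j v hv) (by
        rw [hqi, h2 i hi]
        exact hp i) (by
        rw [hqi, h2 i hi]
        exact hs i)
      refine ⟨Function.update T i T', ?_, ?_, ?_⟩
      · intro j hj
        rcases eq_or_ne j i with rfl | hji
        · rwa [Function.update_self]
        · rw [Function.update_of_ne hji]
          exact h1 j ((mem_insert.1 hj).resolve_left hji)
      · intro j hj
        rw [mem_insert, not_or] at hj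
        rw [Function.update_of_ne hj.1]
        exact h2 j hj.2
      · refine h3.trans ?_
        rw [hq] at h6
        refine h6.trans (le_of_eq ?_)
        refine sum_congr rfl fun m _ => ?_
        congr 1
        refine prod_congr rfl fun j _ => ?_
        rcases eq_or_ne j i with rfl | hji
        · rw [Function.update_self]
          simp
        · rw [Function.update_of_ne hji]
          simp [mem_insert, hji]
  obtain ⟨T, h1, -, h3⟩ := key univ
  refine ⟨T, fun j => h1 j (mem_univ j), h3.trans (le_of_eq ?_)⟩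
  refine sum_congr rfl fun m _ => ?_
  simp only [mem_univ, if_true, prod_const]
  rw [card_univ]

/-- **Finite form.** -/
theorem finite_form {ι V : Type*} [Fintype ι] (Bad : Set (ι → V)) (C e : ℕ)
    (h : ∀ T : Finset V, T.Nonempty →
      ((Fintype.piFinset fun _ : ι => T).filter fun m => m ∈ Bad).card ≤ C * T.card ^ e)
    (he : e ≤ Fintype.card ι) (hι : 1 ≤ Fintype.card ι) (δ : ℝ) (hδ : 0 < δ)
    (S : ι → Finset V) (p : ι → V → ℝ) (h0 : ∀ j, ∀ v ∈ S j, 0 ≤ p j v)
    (hp : ∀ j, ∀ v ∈ S j, p j v ≤ δ) (hs : ∀ j, ∑ v ∈ S j, p j v ≤ 1) :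
    ∑ m ∈ (Fintype.piFinset S).filter (fun m => m ∈ Bad), ∏ j, p j (m j) ≤
      (C + 1) * (Fintype.card ι : ℝ) ^ e * 2 ^ Fintype.card ι * δ ^ (Fintype.card ι - e) := by
  obtain ⟨k, hk⟩ : ∃ k, k = Fintype.card ι := ⟨_, rfl⟩
  rw [← hk] at he hι ⊢
  have hk1 : (1 : ℝ) ≤ k := by exact_mod_cast hι
  -- the trivial case
  rcases lt_or_ge 1 δ with h1 | h1
  · have h2 : ∑ m ∈ (Fintype.piFinset S).filter (fun m => m ∈ Bad), ∏ j, p j (m j) ≤ 1 := by
      calc ∑ m ∈ (Fintype.piFinset S).filter (fun m => m ∈ Bad), ∏ j, p j (m j)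
          ≤ ∑ m ∈ Fintype.piFinset S, ∏ j, p j (m j) := by
            refine sum_le_sum_of_subset_of_nonneg (filter_subset _ _) fun m hm _ => ?_
            exact prod_nonneg fun j _ => h0 j _ (Fintype.mem_piFinset.1 hm j)
        _ = ∏ j, ∑ v ∈ S j, p j v := (prod_univ_sum S p).symm
        _ ≤ 1 := prod_le_one (fun j _ => sum_nonneg fun v hv => h0 j v hv) (fun j _ => hs j)
    refine h2.trans ?_
    have e1 : (1 : ℝ) ≤ δ ^ (k - e) := one_le_pow₀ h1.le
    have e2 : (1 : ℝ) ≤ (k : ℝ) ^ e := one_le_pow₀ hk1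
    have e3 : (1 : ℝ) ≤ 2 ^ k := one_le_pow₀ (by norm_num)
    have e4 : (1 : ℝ) ≤ (C : ℝ) + 1 := by
      have : (0 : ℝ) ≤ C := Nat.cast_nonneg C
      linarith
    exact one_le_mul_of_one_le_of_one_le (one_le_mul_of_one_le_of_one_le
      (one_le_mul_of_one_le_of_one_le e4 e2) e3) e1
  obtain ⟨n, hn⟩ : ∃ n : ℕ, n = ⌊1 / δ⌋₊ := ⟨_, rfl⟩
  have hinv : 1 ≤ 1 / δ := by rw [le_div_iff₀ hδ]; linarith
  have hn1 : 1 ≤ n := by
    rw [hn]
    exact Nat.le_floor (by exact_mod_cast hinv)
  have hn0 : (0 : ℝ) < n := by exact_mod_cast hn1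
  have hnle : (n : ℝ) ≤ 1 / δ := by
    rw [hn]
    exact Nat.floor_le (by positivity)
  have hnlt : 1 / δ < n + 1 := by
    rw [hn]
    exact Nat.lt_floor_add_one _
  have hδn : δ ≤ 1 / n := by
    rw [le_div_iff₀ hn0]
    rw [le_div_iff₀ hδ] at hnle
    linarith
  have hn2 : 1 / (n : ℝ) ≤ 2 * δ := by
    rw [div_le_iff₀ hn0]
    rw [div_lt_iff₀ hδ] at hnlt
    have : (1 : ℝ) ≤ n := by exact_mod_cast hn1
    nlinarith
  obtain ⟨T, hT, hle⟩ := uniform n hn1 (fun m => if m ∈ Bad then (1 : ℝ) else 0)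
    (fun m => by positivity) S p h0 (fun j v hv => (hp j v hv).trans hδn) hs
  have e1 : ∑ m ∈ (Fintype.piFinset S).filter (fun m => m ∈ Bad), ∏ j, p j (m j) =
      ∑ m ∈ Fintype.piFinset S, (∏ j, p j (m j)) * (if m ∈ Bad then (1 : ℝ) else 0) := by
    rw [sum_filter]
    refine sum_congr rfl fun m _ => ?_
    split_ifs <;> simp
  have e2 : ∑ m ∈ Fintype.piFinset T, (1 / (n : ℝ)) ^ Fintype.card ι * (if m ∈ Bad then (1 : ℝ) else 0) =
      (1 / (n : ℝ)) ^ k * (((Fintype.piFinset T).filter (fun m => m ∈ Bad)).card : ℝ) := by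
    rw [← mul_sum, ← hk]
    congr 1
    rw [← sum_filter]
    simp
  rw [e1]
  refine hle.trans ?_
  rw [e2]
  -- the union of the sets
  obtain ⟨U, hU⟩ : ∃ U : Finset V, U = univ.biUnion T := ⟨_, rfl⟩
  have hUc : U.card ≤ k * n := by
    rw [hU]
    refine card_biUnion_le.trans ?_
    calc ∑ j, (T j).card ≤ ∑ _j : ι, n := sum_le_sum fun j _ => hT j
      _ = k * n := by rw [sum_const, card_univ, smul_eq_mul, hk]
  have hsub : (Fintype.piFinset T).filter (fun m => m ∈ Bad) ⊆
      (Fintype.piFinset fun _ : ι => U).filter (fun m => m ∈ Bad) := by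
    intro m hm
    rw [mem_filter, Fintype.mem_piFinset] at hm ⊢
    refine ⟨fun j => ?_, hm.2⟩
    rw [hU, mem_biUnion]
    exact ⟨j, mem_univ j, hm.1 j⟩
  have hcount : (((Fintype.piFinset T).filter (fun m => m ∈ Bad)).card : ℝ) ≤ (C + 1) * ((k : ℝ) * n) ^ e := by
    have hR : (0 : ℝ) ≤ (C + 1) * ((k : ℝ) * n) ^ e := by positivity
    rcases U.eq_empty_or_nonempty with hE | hE
    · have h2 : (Fintype.piFinset T).filter (fun m => m ∈ Bad) = ∅ := by
        rw [eq_empty_iff_forall_notMem]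
        intro m hm
        have h3 := hsub hm
        rw [mem_filter, Fintype.mem_piFinset] at h3
        obtain ⟨j⟩ : Nonempty ι := Fintype.card_pos_iff.1 (by omega)
        have := h3.1 j
        rw [hE] at this
        exact absurd this (notMem_empty _)
      rw [h2, card_empty, Nat.cast_zero]
      exact hR
    · have h2 := (card_le_card hsub).trans (h U hE)
      calc (((Fintype.piFinset T).filter (fun m => m ∈ Bad)).card : ℝ) ≤ ((C * U.card ^ e : ℕ) : ℝ) := by
            exact_mod_cast h2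
        _ = C * (U.card : ℝ) ^ e := by push_cast; ring
        _ ≤ (C + 1) * ((k : ℝ) * n) ^ e := by
          apply mul_le_mul (by linarith) _ (by positivity) (by positivity)
          apply pow_le_pow_left₀ (by positivity)
          exact_mod_cast hUc
  calc (1 / (n : ℝ)) ^ k * (((Fintype.piFinset T).filter (fun m => m ∈ Bad)).card : ℝ)
      ≤ (1 / (n : ℝ)) ^ k * ((C + 1) * ((k : ℝ) * n) ^ e) := by gcongr
    _ = (C + 1) * (k : ℝ) ^ e * (1 / (n : ℝ)) ^ (k - e) := by
        have h3 : (1 / (n : ℝ)) ^ k = (1 / (n : ℝ)) ^ (k - e) * (1 / (n : ℝ)) ^ e := by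
          rw [← pow_add]
          congr 1
          omega
        rw [h3, mul_pow]
        have h4 : (1 / (n : ℝ)) ^ e * (n : ℝ) ^ e = 1 := by
          rw [← mul_pow, one_div, inv_mul_cancel₀ hn0.ne', one_pow]
        linear_combination ((C + 1) * (k : ℝ) ^ e * (1 / (n : ℝ)) ^ (k - e)) * h4
    _ ≤ (C + 1) * (k : ℝ) ^ e * (2 * δ) ^ (k - e) := by gcongr
    _ = (C + 1) * (k : ℝ) ^ e * (2 ^ (k - e) * δ ^ (k - e)) := by rw [mul_pow]
    _ ≤ (C + 1) * (k : ℝ) ^ e * (2 ^ k * δ ^ (k - e)) := by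
        gcongr
        · norm_num
        · omega
    _ = _ := by ring

end Pool.Agent.N680.IR
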