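import Pool.Agent.N680.IR.Eng

/-!
# Independent random parameters with arbitrary distributions: real exponents
-/

set_option autoImplicit false

namespace Pool.Agent.N680.IR

open Finset Classical MeasureTheory ProbabilityTheory

/-- the constant -/
noncomputable def cstR (k : ℕ) (C : ℝ) : ℝ := (C + 1) * (k : ℝ) ^ k * 2 ^ k + 1

lemma cstR_one (k : ℕ) {C : ℝ} (hC : 0 ≤ C) : 1 ≤ cstR k C := by
  unfold cstR
  have : (0 : ℝ) ≤ (C + 1) * (k : ℝ) ^ k * 2 ^ k := by positivity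
  linarith

/-- **Finite form, real exponents.** -/
theorem finite_formR {ι V : Type*} [Fintype ι] (Bad : Set (ι → V)) (C e : ℝ) (hC0 : 0 ≤ C) (he0 : 0 ≤ e)
    (h : ∀ T : Finset V, T.Nonempty →
      (((Fintype.piFinset fun _ : ι => T).filter fun m => m ∈ Bad).card : ℝ) ≤ C * (T.card : ℝ) ^ e)
    (he : e ≤ Fintype.card ι) (δ : ℝ) (hδ : 0 < δ)
    (S : ι → Finset V) (p : ι → V → ℝ) (h0 : ∀ j, ∀ v ∈ S j, 0 ≤ p j v)
    (hp : ∀ j, ∀ v ∈ S j, p j v ≤ δ) (hs : ∀ j, ∑ v ∈ S j, p j v ≤ 1) :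
    ∑ m ∈ (Fintype.piFinset S).filter (fun m => m ∈ Bad), ∏ j, p j (m j) ≤
      cstR (Fintype.card ι) C * δ ^ ((Fintype.card ι : ℝ) - e) := by
  obtain ⟨k, hk⟩ : ∃ k, k = Fintype.card ι := ⟨_, rfl⟩
  rw [← hk] at he ⊢
  have htriv : ∑ m ∈ (Fintype.piFinset S).filter (fun m => m ∈ Bad), ∏ j, p j (m j) ≤ 1 := by
    calc ∑ m ∈ (Fintype.piFinset S).filter (fun m => m ∈ Bad), ∏ j, p j (m j)
        ≤ ∑ m ∈ Fintype.piFinset S, ∏ j, p j (m j) := by
          refine sum_le_sum_of_subset_of_nonneg (filter_subset _ _) fun m hm _ => ?_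
          exact prod_nonneg fun j _ => h0 j _ (Fintype.mem_piFinset.1 hm j)
      _ = ∏ j, ∑ v ∈ S j, p j v := (prod_univ_sum S p).symm
      _ ≤ 1 := prod_le_one (fun j _ => sum_nonneg fun v hv => h0 j v hv) (fun j _ => hs j)
  rcases Nat.eq_zero_or_pos k with hk0 | hk0
  · have e0 : (k : ℝ) - e = 0 := by
      rw [hk0] at he ⊢
      push_cast at he ⊢
      linarith
    rw [e0, Real.rpow_zero, mul_one]
    exact htriv.trans (cstR_one k hC0)
  have hk1 : (1 : ℝ) ≤ k := by exact_mod_cast hk0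
  rcases lt_or_ge 1 δ with h1 | h1
  · refine htriv.trans ?_
    exact one_le_mul_of_one_le_of_one_le (cstR_one k hC0) (Real.one_le_rpow h1.le (by linarith))
  obtain ⟨n, hn⟩ : ∃ n : ℕ, n = ⌊1 / δ⌋₊ := ⟨_, rfl⟩
  have hinv : 1 ≤ 1 / δ := by rw [le_div_iff₀ hδ]; linarith
  have hn1 : 1 ≤ n := by
    rw [hn]
    exact Nat.le_floor (by exact_mod_cast hinv)
  have hn0 : (0 : ℝ) < n := by exact_mod_cast hn1
  have hnle : (n : ℝ) ≤ 1 / δ := by
    rw [hn]
    exact Nat.floor_le (by positivity)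
  have hnlt : 1 / δ < n + 1 := by
    rw [hn]
    exact Nat.lt_floor_add_one _
  have hδn : δ ≤ 1 / n := by
    rw [le_div_iff₀ hn0]
    rw [le_div_iff₀ hδ] at hnle
    linarith
  have hn2 : 1 / (n : ℝ) ≤ 2 * δ := by
    rw [div_le_iff₀ hn0]
    rw [div_lt_iff₀ hδ] at hnlt
    have : (1 : ℝ) ≤ n := by exact_mod_cast hn1
    nlinarith
  obtain ⟨T, hT, hle⟩ := uniform n hn1 (fun m => if m ∈ Bad then (1 : ℝ) else 0)
    (fun m => by positivity) S p h0 (fun j v hv => (hp j v hv).trans hδn) hs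
  have e1 : ∑ m ∈ (Fintype.piFinset S).filter (fun m => m ∈ Bad), ∏ j, p j (m j) =
      ∑ m ∈ Fintype.piFinset S, (∏ j, p j (m j)) * (if m ∈ Bad then (1 : ℝ) else 0) := by
    rw [sum_filter]
    refine sum_congr rfl fun m _ => ?_
    split_ifs <;> simp
  have e2 : ∑ m ∈ Fintype.piFinset T, (1 / (n : ℝ)) ^ Fintype.card ι * (if m ∈ Bad then (1 : ℝ) else 0) =
      (1 / (n : ℝ)) ^ k * (((Fintype.piFinset T).filter (fun m => m ∈ Bad)).card : ℝ) := by
    rw [← mul_sum, ← hk]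
    congr 1
    rw [← sum_filter]
    simp
  rw [e1]
  refine hle.trans ?_
  rw [e2]
  obtain ⟨U, hU⟩ : ∃ U : Finset V, U = univ.biUnion T := ⟨_, rfl⟩
  have hUc : U.card ≤ k * n := by
    rw [hU]
    refine card_biUnion_le.trans ?_
    calc ∑ j, (T j).card ≤ ∑ _j : ι, n := sum_le_sum fun j _ => hT j
      _ = k * n := by rw [sum_const, card_univ, smul_eq_mul, hk]
  have hsub : (Fintype.piFinset T).filter (fun m => m ∈ Bad) ⊆
      (Fintype.piFinset fun _ : ι => U).filter (fun m => m ∈ Bad) := by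
    intro m hm
    rw [mem_filter, Fintype.mem_piFinset] at hm ⊢
    refine ⟨fun j => ?_, hm.2⟩
    rw [hU, mem_biUnion]
    exact ⟨j, mem_univ j, hm.1 j⟩
  have hcount : (((Fintype.piFinset T).filter (fun m => m ∈ Bad)).card : ℝ) ≤ (C + 1) * ((k : ℝ) * n) ^ e := by
    have hR : (0 : ℝ) ≤ (C + 1) * ((k : ℝ) * n) ^ e := by positivity
    rcases U.eq_empty_or_nonempty with hE | hE
    · have h2 : (Fintype.piFinset T).filter (fun m => m ∈ Bad) = ∅ := by
        rw [eq_empty_iff_forall_notMem]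
        intro m hm
        have h3 := hsub hm
        rw [mem_filter, Fintype.mem_piFinset] at h3
        obtain ⟨j⟩ : Nonempty ι := Fintype.card_pos_iff.1 (by omega)
        have := h3.1 j
        rw [hE] at this
        exact absurd this (notMem_empty _)
      rw [h2, card_empty, Nat.cast_zero]
      exact hR
    · have h2 := h U hE
      have h3 : (((Fintype.piFinset T).filter (fun m => m ∈ Bad)).card : ℝ) ≤
          (((Fintype.piFinset fun _ : ι => U).filter (fun m => m ∈ Bad)).card : ℝ) := by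
        exact_mod_cast card_le_card hsub
      refine h3.trans (h2.trans ?_)
      apply mul_le_mul (by linarith) _ (by positivity) (by positivity)
      apply Real.rpow_le_rpow (by positivity) _ he0
      exact_mod_cast hUc
  have hke : (k : ℝ) ^ e ≤ (k : ℝ) ^ k := by
    rw [← Real.rpow_natCast (k : ℝ) k]
    exact Real.rpow_le_rpow_of_exponent_le hk1 he
  calc (1 / (n : ℝ)) ^ k * (((Fintype.piFinset T).filter (fun m => m ∈ Bad)).card : ℝ)
      ≤ (1 / (n : ℝ)) ^ k * ((C + 1) * ((k : ℝ) * n) ^ e) := by gcongr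
    _ = (C + 1) * (k : ℝ) ^ e * (1 / (n : ℝ)) ^ ((k : ℝ) - e) := by
        have h3 : (1 / (n : ℝ)) ^ k = (1 / (n : ℝ)) ^ ((k : ℝ) - e) * (1 / (n : ℝ)) ^ e := by
          rw [← Real.rpow_natCast (1 / (n : ℝ)) k, ← Real.rpow_add (by positivity)]
          congr 1
          ring
        rw [h3, Real.mul_rpow (by positivity) (by positivity)]
        have h4 : (1 / (n : ℝ)) ^ e * (n : ℝ) ^ e = 1 := by
          rw [← Real.mul_rpow (by positivity) (by positivity), one_div, inv_mul_cancel₀ hn0.ne', Real.one_rpow]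
        linear_combination ((C + 1) * (k : ℝ) ^ e * (1 / (n : ℝ)) ^ ((k : ℝ) - e)) * h4
    _ ≤ (C + 1) * (k : ℝ) ^ k * (2 * δ) ^ ((k : ℝ) - e) := by
        have h5 : (1 / (n : ℝ)) ^ ((k : ℝ) - e) ≤ (2 * δ) ^ ((k : ℝ) - e) :=
          Real.rpow_le_rpow (by positivity) hn2 (by linarith)
        gcongr
    _ = (C + 1) * (k : ℝ) ^ k * (2 ^ ((k : ℝ) - e) * δ ^ ((k : ℝ) - e)) := by
        rw [Real.mul_rpow (by norm_num) hδ.le]
    _ ≤ (C + 1) * (k : ℝ) ^ k * (2 ^ k * δ ^ ((k : ℝ) - e)) := by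
        have h5 : (2 : ℝ) ^ ((k : ℝ) - e) ≤ 2 ^ k := by
          rw [← Real.rpow_natCast 2 k]
          exact Real.rpow_le_rpow_of_exponent_le (by norm_num) (by linarith)
        gcongr
    _ = ((C + 1) * (k : ℝ) ^ k * 2 ^ k) * δ ^ ((k : ℝ) - e) := by ring
    _ ≤ cstR k C * δ ^ ((k : ℝ) - e) := by
        apply mul_le_mul_of_nonneg_right _ (by positivity)
        unfold cstR
        linarith

/-- **Independent random parameters, real exponents.** -/
theorem probR {ι V Ω : Type*} [Fintype ι] [MeasurableSpace Ω] [MeasurableSpace V] [MeasurableSingletonClass V]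
    [Countable V] (P : Measure Ω) [IsProbabilityMeasure P] (X : ι → Ω → V)
    (hind : iIndepFun X P) (hX : ∀ i, Measurable (X i)) (Bad : Set (ι → V)) (C e : ℝ) (hC0 : 0 ≤ C) (he0 : 0 ≤ e)
    (h : ∀ T : Finset V, T.Nonempty →
      (((Fintype.piFinset fun _ : ι => T).filter fun m => m ∈ Bad).card : ℝ) ≤ C * (T.card : ℝ) ^ e)
    (he : e ≤ Fintype.card ι) (δ : ℝ) (hδ : 0 < δ)
    (hP : ∀ i v, P {ω | X i ω = v} ≤ ENNReal.ofReal δ) :
    P {ω | (fun i => X i ω) ∈ Bad} ≤
      ENNReal.ofReal (cstR (Fintype.card ι) C * δ ^ ((Fintype.card ι : ℝ) - e)) := by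
  obtain ⟨R, hR⟩ : ∃ R : ℝ, R = cstR (Fintype.card ι) C * δ ^ ((Fintype.card ι : ℝ) - e) := ⟨_, rfl⟩
  rw [← hR]
  have hprod : ∀ m : ι → V, P {ω | (fun i => X i ω) = m} = ∏ i, P {ω | X i ω = m i} := by
    intro m
    have h1 := hind.measure_inter_preimage_eq_mul univ (sets := fun i => {m i})
      (fun i _ => measurableSet_singleton _)
    have h2 : {ω | (fun i => X i ω) = m} = ⋂ i ∈ (univ : Finset ι), X i ⁻¹' {m i} := by
      ext ω
      simp [funext_iff]
    rw [h2, h1]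
    rfl
  have hsub : {ω | (fun i => X i ω) ∈ Bad} ⊆ ⋃ m : Bad, {ω | (fun i => X i ω) = (m : ι → V)} := by
    intro ω hω
    exact Set.mem_iUnion.2 ⟨⟨_, hω⟩, rfl⟩
  refine (measure_mono hsub).trans ((measure_iUnion_le _).trans ?_)
  rw [ENNReal.tsum_eq_iSup_sum]
  refine iSup_le fun F => ?_
  obtain ⟨p, hp⟩ : ∃ p : ι → V → ℝ, p = fun i v => (P {ω | X i ω = v}).toReal := ⟨_, rfl⟩
  obtain ⟨S, hS⟩ : ∃ S : ι → Finset V, S = fun i => F.image (fun m : Bad => (m : ι → V) i) := ⟨_, rfl⟩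
  have hp0 : ∀ i v, 0 ≤ p i v := fun i v => by rw [hp]; exact ENNReal.toReal_nonneg
  have hfin := finite_formR Bad C e hC0 he0 h he δ hδ S p (fun j v _ => hp0 j v) (fun j v _ => by
    rw [hp]
    exact ENNReal.toReal_le_of_le_ofReal hδ.le (hP j v)) (fun j => by
    rw [hp]
    rw [← ENNReal.toReal_sum (fun v _ => measure_ne_top _ _)]
    have h1 : ∑ v ∈ S j, P {ω | X j ω = v} ≤ 1 := by
      rw [← measure_biUnion_finset]
      · exact prob_le_one
      · intro v _ v' _ hvv'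
        rw [Function.onFun, Set.disjoint_left]
        intro ω h1 h2
        exact hvv' (h1.symm.trans h2)
      · intro v _
        exact hX j (measurableSet_singleton v)
    have h2 := ENNReal.toReal_mono ENNReal.one_ne_top h1
    simpa using h2)
  rw [← hR] at hfin
  have h3 : ∑ m ∈ F, P {ω | (fun i => X i ω) = (m : ι → V)} = ENNReal.ofReal (∑ m ∈ F, ∏ i, p i ((m : ι → V) i)) := by
    rw [ENNReal.ofReal_sum_of_nonneg (fun m _ => prod_nonneg fun i _ => hp0 i _)]
    refine sum_congr rfl fun m _ => ?_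
    rw [hprod, ENNReal.ofReal_prod_of_nonneg (fun i _ => hp0 i _)]
    refine prod_congr rfl fun i _ => ?_
    rw [hp]
    exact (ENNReal.ofReal_toReal (measure_ne_top _ _)).symm
  rw [h3]
  apply ENNReal.ofReal_le_ofReal
  refine le_trans ?_ hfin
  have h4 : ∑ m ∈ F, ∏ i, p i ((m : ι → V) i) = ∑ m ∈ F.image (fun m : Bad => (m : ι → V)), ∏ i, p i (m i) := by
    rw [sum_image]
    intro a _ b _ hab
    exact Subtype.ext hab
  rw [h4]
  refine sum_le_sum_of_subset_of_nonneg ?_ fun m _ _ => prod_nonneg fun i _ => hp0 i _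
  intro m hm
  rw [mem_image] at hm
  obtain ⟨a, ha, rfl⟩ := hm
  rw [mem_filter, Fintype.mem_piFinset]
  refine ⟨fun i => ?_, a.2⟩
  rw [hS, mem_image]
  exact ⟨a, ha, rfl⟩

/-- **Arithmetic functions, real exponents.** -/
theorem arithR {ι V : Type*} [Fintype ι] (Bad : Set (ι → V)) (C e : ℝ) (hC0 : 0 ≤ C) (he0 : 0 ≤ e)
    (h : ∀ T : Finset V, T.Nonempty →
      (((Fintype.piFinset fun _ : ι => T).filter fun m => m ∈ Bad).card : ℝ) ≤ C * (T.card : ℝ) ^ e)
    (he : e ≤ Fintype.card ι) (δ : ℝ) (hδ : 0 < δ)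
    (M : ℕ) (hM : 1 ≤ M) (F : ι → ℕ → V)
    (hF : ∀ i v, (((Icc 1 M).filter (fun t => F i t = v)).card : ℝ) ≤ δ * M) :
    (((Fintype.piFinset fun _ : ι => Icc 1 M).filter (fun t => (fun i => F i (t i)) ∈ Bad)).card : ℝ) ≤
      cstR (Fintype.card ι) C * δ ^ ((Fintype.card ι : ℝ) - e) * (M : ℝ) ^ Fintype.card ι := by
  have hM0 : (0 : ℝ) < M := by exact_mod_cast hM
  obtain ⟨S, hS⟩ : ∃ S : ι → Finset V, S = fun i => (Icc 1 M).image (F i) := ⟨_, rfl⟩
  obtain ⟨p, hp⟩ : ∃ p : ι → V → ℝ, p = fun i v => (((Icc 1 M).filter (fun t => F i t = v)).card : ℝ) / M := ⟨_, rfl⟩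
  have hfin := finite_formR Bad C e hC0 he0 h he δ hδ S p (fun j v _ => by rw [hp]; positivity) (fun j v _ => by
    rw [hp]
    simp only
    rw [div_le_iff₀ hM0]
    exact hF j v) (fun j => by
    rw [hp]
    simp only
    rw [← sum_div, div_le_one hM0, ← Nat.cast_sum]
    have h1 : ∑ v ∈ S j, ((Icc 1 M).filter (fun t => F j t = v)).card = (Icc 1 M).card := by
      rw [hS]
      exact (card_eq_sum_card_image (F j) (Icc 1 M)).symm
    rw [h1, Nat.card_Icc]
    simp)
  obtain ⟨R, hR⟩ : ∃ R : ℝ, R = cstR (Fintype.card ι) C * δ ^ ((Fintype.card ι : ℝ) - e) := ⟨_, rfl⟩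
  rw [← hR] at hfin ⊢
  have h2 : (((Fintype.piFinset fun _ : ι => Icc 1 M).filter (fun t => (fun i => F i (t i)) ∈ Bad)).card : ℝ) =
      (∑ m ∈ (Fintype.piFinset S).filter (fun m => m ∈ Bad), ∏ j, p j (m j)) * (M : ℝ) ^ Fintype.card ι := by
    have h3 : ((Fintype.piFinset fun _ : ι => Icc 1 M).filter (fun t => (fun i => F i (t i)) ∈ Bad)).card =
        ∑ m ∈ (Fintype.piFinset S).filter (fun m => m ∈ Bad),
          (((Fintype.piFinset fun _ : ι => Icc 1 M).filter (fun t => (fun i => F i (t i)) ∈ Bad)).filter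
            (fun t => (fun i => F i (t i)) = m)).card := by
      apply card_eq_sum_card_fiberwise
      intro t ht
      rw [mem_coe, mem_filter, Fintype.mem_piFinset] at ht ⊢
      refine ⟨fun i => ?_, ht.2⟩
      rw [hS]
      exact mem_image_of_mem _ (ht.1 i)
    rw [h3, Nat.cast_sum, sum_mul]
    refine sum_congr rfl fun m hm => ?_
    rw [mem_filter] at hm
    have h4 : ((Fintype.piFinset fun _ : ι => Icc 1 M).filter (fun t => (fun i => F i (t i)) ∈ Bad)).filter
        (fun t => (fun i => F i (t i)) = m) = Fintype.piFinset fun i => (Icc 1 M).filter (fun t => F i t = m i) := by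
      ext t
      rw [mem_filter, mem_filter, Fintype.mem_piFinset, Fintype.mem_piFinset]
      constructor
      · rintro ⟨⟨h5, h6⟩, h7⟩ i
        exact mem_filter.2 ⟨h5 i, congrFun h7 i⟩
      · intro h5
        have h7 : (fun i => F i (t i)) = m := funext fun i => (mem_filter.1 (h5 i)).2
        refine ⟨⟨fun i => (mem_filter.1 (h5 i)).1, ?_⟩, h7⟩
        rw [h7]
        exact hm.2
    rw [h4, Fintype.card_piFinset, hp]
    push_cast
    rw [prod_div_distrib, prod_const, card_univ, div_mul_cancel₀]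
    positivity
  rw [h2]
  exact mul_le_mul_of_nonneg_right hfin (by positivity)

end Pool.Agent.N680.IR
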