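import Pool.Agent.N680.IR.Eng

/-!
# Independent random parameters with arbitrary distributions: probability spaces
-/

set_option autoImplicit false

namespace Pool.Agent.N680.IR

open Finset Classical MeasureTheory ProbabilityTheory

/-- **Independent random parameters.** If among the tuples of elements of every finite nonempty set `T` at most
`C |T| ^ e` are bad, a tuple of independent random elements is bad with probability at most `C' δ ^ (k - e)`, where `δ`
is an upper bound for the atoms of the distributions. -/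
theorem prob {ι V Ω : Type*} [Fintype ι] [MeasurableSpace Ω] [MeasurableSpace V] [MeasurableSingletonClass V]
    [Countable V] (P : Measure Ω) [IsProbabilityMeasure P] (X : ι → Ω → V)
    (hind : iIndepFun X P) (hX : ∀ i, Measurable (X i)) (Bad : Set (ι → V)) (C e : ℕ)
    (h : ∀ T : Finset V, T.Nonempty →
      ((Fintype.piFinset fun _ : ι => T).filter fun m => m ∈ Bad).card ≤ C * T.card ^ e)
    (he : e ≤ Fintype.card ι) (hι : 1 ≤ Fintype.card ι) (δ : ℝ) (hδ : 0 < δ)
    (hP : ∀ i v, P {ω | X i ω = v} ≤ ENNReal.ofReal δ) :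
    P {ω | (fun i => X i ω) ∈ Bad} ≤
      ENNReal.ofReal ((C + 1) * (Fintype.card ι : ℝ) ^ e * 2 ^ Fintype.card ι * δ ^ (Fintype.card ι - e)) := by
  obtain ⟨R, hR⟩ : ∃ R : ℝ, R = (C + 1) * (Fintype.card ι : ℝ) ^ e * 2 ^ Fintype.card ι *
    δ ^ (Fintype.card ι - e) := ⟨_, rfl⟩
  rw [← hR]
  have hprod : ∀ m : ι → V, P {ω | (fun i => X i ω) = m} = ∏ i, P {ω | X i ω = m i} := by
    intro m
    have h1 := hind.measure_inter_preimage_eq_mul univ (sets := fun i => {m i})
      (fun i _ => measurableSet_singleton _)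
    have h2 : {ω | (fun i => X i ω) = m} = ⋂ i ∈ (univ : Finset ι), X i ⁻¹' {m i} := by
      ext ω
      simp [funext_iff]
    rw [h2, h1]
    rfl
  have hsub : {ω | (fun i => X i ω) ∈ Bad} ⊆ ⋃ m : Bad, {ω | (fun i => X i ω) = (m : ι → V)} := by
    intro ω hω
    exact Set.mem_iUnion.2 ⟨⟨_, hω⟩, rfl⟩
  refine (measure_mono hsub).trans ((measure_iUnion_le _).trans ?_)
  rw [ENNReal.tsum_eq_iSup_sum]
  refine iSup_le fun F => ?_
  obtain ⟨p, hp⟩ : ∃ p : ι → V → ℝ, p = fun i v => (P {ω | X i ω = v}).toReal := ⟨_, rfl⟩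
  obtain ⟨S, hS⟩ : ∃ S : ι → Finset V, S = fun i => F.image (fun m : Bad => (m : ι → V) i) := ⟨_, rfl⟩
  have hp0 : ∀ i v, 0 ≤ p i v := fun i v => by rw [hp]; exact ENNReal.toReal_nonneg
  have hfin := finite_form Bad C e h he hι δ hδ S p (fun j v _ => hp0 j v) (fun j v _ => by
    rw [hp]
    exact ENNReal.toReal_le_of_le_ofReal hδ.le (hP j v)) (fun j => by
    rw [hp]
    rw [← ENNReal.toReal_sum (fun v _ => measure_ne_top _ _)]
    have h1 : ∑ v ∈ S j, P {ω | X j ω = v} ≤ 1 := by
      rw [← measure_biUnion_finset]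
      · exact prob_le_one
      · intro v _ v' _ hvv'
        rw [Function.onFun, Set.disjoint_left]
        intro ω h1 h2
        exact hvv' (h1.symm.trans h2)
      · intro v _
        exact hX j (measurableSet_singleton v)
    have h2 := ENNReal.toReal_mono ENNReal.one_ne_top h1
    simpa using h2)
  rw [← hR] at hfin
  have h3 : ∑ m ∈ F, P {ω | (fun i => X i ω) = (m : ι → V)} = ENNReal.ofReal (∑ m ∈ F, ∏ i, p i ((m : ι → V) i)) := by
    rw [ENNReal.ofReal_sum_of_nonneg (fun m _ => prod_nonneg fun i _ => hp0 i _)]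
    refine sum_congr rfl fun m _ => ?_
    rw [hprod, ENNReal.ofReal_prod_of_nonneg (fun i _ => hp0 i _)]
    refine prod_congr rfl fun i _ => ?_
    rw [hp]
    exact (ENNReal.ofReal_toReal (measure_ne_top _ _)).symm
  rw [h3]
  apply ENNReal.ofReal_le_ofReal
  refine le_trans ?_ hfin
  have h4 : ∑ m ∈ F, ∏ i, p i ((m : ι → V) i) = ∑ m ∈ F.image (fun m : Bad => (m : ι → V)), ∏ i, p i (m i) := by
    rw [sum_image]
    intro a _ b _ hab
    exact Subtype.ext hab
  rw [h4]
  refine sum_le_sum_of_subset_of_nonneg ?_ fun m _ _ => prod_nonneg fun i _ => hp0 i _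
  intro m hm
  rw [mem_image] at hm
  obtain ⟨a, ha, rfl⟩ := hm
  rw [mem_filter, Fintype.mem_piFinset]
  refine ⟨fun i => ?_, a.2⟩
  rw [hS, mem_image]
  exact ⟨a, ha, rfl⟩

/-- **Arithmetic functions.** The parameters are the values `F i (t i)` of arbitrary functions at independent arguments
`t i` in `[1, M]`, every value being taken at most `δ M` times. -/
theorem arith {ι V : Type*} [Fintype ι] (Bad : Set (ι → V)) (C e : ℕ)
    (h : ∀ T : Finset V, T.Nonempty →
      ((Fintype.piFinset fun _ : ι => T).filter fun m => m ∈ Bad).card ≤ C * T.card ^ e)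
    (he : e ≤ Fintype.card ι) (hι : 1 ≤ Fintype.card ι) (δ : ℝ) (hδ : 0 < δ)
    (M : ℕ) (hM : 1 ≤ M) (F : ι → ℕ → V)
    (hF : ∀ i v, (((Icc 1 M).filter (fun t => F i t = v)).card : ℝ) ≤ δ * M) :
    (((Fintype.piFinset fun _ : ι => Icc 1 M).filter (fun t => (fun i => F i (t i)) ∈ Bad)).card : ℝ) ≤
      (C + 1) * (Fintype.card ι : ℝ) ^ e * 2 ^ Fintype.card ι * δ ^ (Fintype.card ι - e) *
        (M : ℝ) ^ Fintype.card ι := by
  have hM0 : (0 : ℝ) < M := by exact_mod_cast hM
  obtain ⟨S, hS⟩ : ∃ S : ι → Finset V, S = fun i => (Icc 1 M).image (F i) := ⟨_, rfl⟩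
  obtain ⟨p, hp⟩ : ∃ p : ι → V → ℝ, p = fun i v => (((Icc 1 M).filter (fun t => F i t = v)).card : ℝ) / M := ⟨_, rfl⟩
  have hfin := finite_form Bad C e h he hι δ hδ S p (fun j v _ => by rw [hp]; positivity) (fun j v _ => by
    rw [hp]
    simp only
    rw [div_le_iff₀ hM0]
    exact hF j v) (fun j => by
    rw [hp]
    simp only
    rw [← sum_div, div_le_one hM0, ← Nat.cast_sum]
    have h1 : ∑ v ∈ S j, ((Icc 1 M).filter (fun t => F j t = v)).card = (Icc 1 M).card := by
      rw [hS]
      exact (card_eq_sum_card_image (F j) (Icc 1 M)).symm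
    rw [h1, Nat.card_Icc]
    simp)
  obtain ⟨R, hR⟩ : ∃ R : ℝ, R = (C + 1) * (Fintype.card ι : ℝ) ^ e * 2 ^ Fintype.card ι *
    δ ^ (Fintype.card ι - e) := ⟨_, rfl⟩
  rw [← hR] at hfin ⊢
  have h2 : (((Fintype.piFinset fun _ : ι => Icc 1 M).filter (fun t => (fun i => F i (t i)) ∈ Bad)).card : ℝ) =
      (∑ m ∈ (Fintype.piFinset S).filter (fun m => m ∈ Bad), ∏ j, p j (m j)) * (M : ℝ) ^ Fintype.card ι := by
    have h3 : ((Fintype.piFinset fun _ : ι => Icc 1 M).filter (fun t => (fun i => F i (t i)) ∈ Bad)).card =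
        ∑ m ∈ (Fintype.piFinset S).filter (fun m => m ∈ Bad),
          (((Fintype.piFinset fun _ : ι => Icc 1 M).filter (fun t => (fun i => F i (t i)) ∈ Bad)).filter
            (fun t => (fun i => F i (t i)) = m)).card := by
      apply card_eq_sum_card_fiberwise
      intro t ht
      rw [mem_coe, mem_filter, Fintype.mem_piFinset] at ht ⊢
      refine ⟨fun i => ?_, ht.2⟩
      rw [hS]
      exact mem_image_of_mem _ (ht.1 i)
    rw [h3, Nat.cast_sum, sum_mul]
    refine sum_congr rfl fun m hm => ?_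
    rw [mem_filter] at hm
    have h4 : ((Fintype.piFinset fun _ : ι => Icc 1 M).filter (fun t => (fun i => F i (t i)) ∈ Bad)).filter
        (fun t => (fun i => F i (t i)) = m) = Fintype.piFinset fun i => (Icc 1 M).filter (fun t => F i t = m i) := by
      ext t
      rw [mem_filter, mem_filter, Fintype.mem_piFinset, Fintype.mem_piFinset]
      constructor
      · rintro ⟨⟨h5, h6⟩, h7⟩ i
        exact mem_filter.2 ⟨h5 i, congrFun h7 i⟩
      · intro h5
        have h7 : (fun i => F i (t i)) = m := funext fun i => (mem_filter.1 (h5 i)).2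
        refine ⟨⟨fun i => (mem_filter.1 (h5 i)).1, ?_⟩, h7⟩
        rw [h7]
        exact hm.2
    rw [h4, Fintype.card_piFinset, hp]
    push_cast
    rw [prod_div_distrib, prod_const, card_univ, div_mul_cancel₀]
    positivity
  rw [h2]
  exact mul_le_mul_of_nonneg_right hfin (by positivity)

end Pool.Agent.N680.IR
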